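import Pool.Agent.Lib_helper72.KXc.C
import Pool.Agent.Lib_helper72.KXc.ClD
import Pool.Agent.Lib_helper72.KX.Nx
import Pool.Agent.Lib_helper72.KC.P2

/-!
# The curve with `b = 54/25`, `c = 6/5`: data of the cubic step
-/

set_option autoImplicit false
set_option linter.unusedSectionVars false
set_option linter.unusedSimpArgs false
set_option linter.unusedVariables false

namespace Pool.Agent.KXc

open Polynomial WeierstrassCurve.Affine WithZero TN KX KC72 MK4
open Pool.Agent.K7 (orb6_orb)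

/-- the Moebius functions of `y / x` -/
noncomputable def pq : List Mo := [
  (false, [.ofNat 0, .ofNat 0, .ofNat 0, .ofNat 0, .ofNat 0, .ofNat 1, .ofNat 0, .negSucc 0, .ofNat 0, .ofNat 0, .negSucc 0, .ofNat 0]),
  (false, [.negSucc 0, .ofNat 0, .ofNat 0, .ofNat 0, .ofNat 0, .ofNat 0, .ofNat 0, .ofNat 0, .ofNat 1, .ofNat 1, .negSucc 0, .ofNat 1]),
  (true, [.ofNat 0, .ofNat 0, .ofNat 0, .ofNat 0, .ofNat 0, .ofNat 1, .negSucc 0, .ofNat 0, .ofNat 0, .negSucc 0, .ofNat 0, .ofNat 0]),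
  (false, [.ofNat 0, .ofNat 0, .ofNat 0, .ofNat 0, .ofNat 0, .ofNat 0, .negSucc 0, .ofNat 0, .ofNat 1, .ofNat 2, .ofNat 0, .ofNat 0]),
  (false, [.negSucc 0, .ofNat 0, .ofNat 0, .ofNat 0, .ofNat 0, .ofNat 1, .ofNat 0, .ofNat 0, .ofNat 0, .negSucc 0, .negSucc 0, .ofNat 1]),
  (false, [.ofNat 0, .ofNat 0, .ofNat 0, .ofNat 0, .ofNat 0, .ofNat 0, .ofNat 0, .negSucc 0, .ofNat 1, .ofNat 2, .negSucc 0, .ofNat 0]),
  (false, [.ofNat 0, .ofNat 0, .ofNat 0, .ofNat 0, .ofNat 0, .ofNat 0, .negSucc 0, .ofNat 0, .ofNat 1, .ofNat 2, .negSucc 0, .ofNat 0]),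
  (false, [.ofNat 0, .ofNat 0, .ofNat 0, .ofNat 0, .ofNat 0, .negSucc 0, .ofNat 0, .ofNat 0, .ofNat 1, .ofNat 0, .ofNat 0, .ofNat 0])]

/-- the function of degree three of `y / x` -/
noncomputable def R0 : Mo := (false, [.negSucc 0, .ofNat 0, .ofNat 0, .ofNat 0, .ofNat 0, .ofNat 2, .ofNat 0, .negSucc 1, .ofNat 1, .ofNat 1, .negSucc 2, .ofNat 1])

/-- positions of the translates of `pq` -/
noncomputable def qT : List (List (ℕ × ℕ)) := [
  [(99, 4), (26, 2), (99, 2), (98, 1), (30, 3), (98, 3), (100, 3), (25, 4)],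
  [(69, 3), (140, 0), (69, 1), (87, 5), (3, 3), (87, 0), (55, 0), (141, 5)],
  [(21, 0), (70, 5), (21, 5), (67, 5), (128, 2), (67, 0), (121, 5), (122, 0)],
  [(136, 5), (14, 4), (136, 0), (15, 2), (32, 4), (15, 4), (135, 1), (112, 0)],
  [(41, 3), (53, 4), (41, 1), (40, 1), (66, 4), (40, 3), (65, 3), (85, 3)]]

/-- positions of the classes of degree six -/
noncomputable def cubT : List (ℕ × ℕ) := [(3, 4), (2, 0), (4, 3), (0, 3), (1, 0)]

/-- the classes of degree two and four -/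
noncomputable def clsA : List (Mo × Mo) := cls.take 155

section

variable {k : Type*} [Field k] [CharZero k] {F : Type*} [Field F] [Algebra k F] {x y : F}

lemma mk0 : algebraMap k F (0) = 0 := by simp [map_div₀, map_ofNat, map_neg]

lemma mk1 : algebraMap k F (9/10) = 9/10 := by simp [map_div₀, map_ofNat, map_neg]

lemma mk2 : algebraMap k F (4/5) = 4/5 := by simp [map_div₀, map_ofNat, map_neg]

lemma mk3 : algebraMap k F (6/5) = 6/5 := by simp [map_div₀, map_ofNat, map_neg]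

lemma mk4 : algebraMap k F (10/27) = 10/27 := by simp [map_div₀, map_ofNat, map_neg]

end

end Pool.Agent.KXc
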